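import Pool.Agent.Q100.BLNotSP

/-!
# Extensions of semiprojective Banach lattices need not be semiprojective

The general definitions are in `Pool/Agent/Q100/BL.lean`, the Banach lattice `ℓ₁` (`Ell1`) is in
`Pool/Agent/Q100/BLEll1.lean`. The product `Ell1 × Ell1` carries the maximum norm, that is, it is
the `ℓ_∞`-sum of two copies of `ℓ₁`.
-/

set_option autoImplicit false

namespace Pool.Agent.Results.MP_1502ad_an.SumNotSemiprojective

open Q100.BL

universe u v w

/-- Short exact sequences `0 → J → A → B → 0` of Banach lattices: `i` is an isometric lattice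
homomorphism onto the kernel of `q` (so `J` is a closed ideal of `A`), and `q` is a quotient map. -/
structure IsShortExact {J : Type u} [NormedAddCommGroup J] [NormedSpace ℝ J] [Lattice J]
    {A : Type v} [NormedAddCommGroup A] [NormedSpace ℝ A] [Lattice A]
    {B : Type w} [NormedAddCommGroup B] [NormedSpace ℝ B] [Lattice B]
    (i : J →L[ℝ] A) (q : A →L[ℝ] B) : Prop where
  latHom : IsLatHom i
  isometry : ∀ x, ‖i x‖ = ‖x‖
  quot : IsQuotientMap q
  exact : ∀ a : A, q a = 0 ↔ ∃ x, i x = a

lemma shortExact : IsShortExact (ContinuousLinearMap.inl ℝ Ell1 Ell1)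
    (ContinuousLinearMap.snd ℝ Ell1 Ell1) := by
  refine ⟨?_, ?_, ⟨?_, ?_, ?_, ?_⟩, ?_⟩
  · intro x
    exact Prod.ext rfl (abs_zero (α := Ell1)).symm
  · intro x
    show ‖((x, 0) : Ell1 × Ell1)‖ = ‖x‖
    rw [Prod.norm_def, norm_zero]
    exact max_eq_left (norm_nonneg x)
  · intro x
    rfl
  · intro y
    exact ⟨(0, y), rfl⟩
  · intro x
    show ‖x.2‖ ≤ ‖x‖
    rw [Prod.norm_def]
    exact le_max_right _ _
  · intro y ε hε
    refine ⟨(0, y), rfl, ?_⟩
    rw [Prod.norm_def, norm_zero]
    exact max_le (by positivity) (by linarith)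
  · intro a
    constructor
    · intro h
      exact ⟨a.1, Prod.ext rfl (Eq.symm h)⟩
    · rintro ⟨x, rfl⟩
      rfl

/-- `ℓ₁` is semiprojective, the sequence `0 → ℓ₁ → ℓ₁ ⊕_∞ ℓ₁ → ℓ₁ → 0` is exact, and
`ℓ₁ ⊕_∞ ℓ₁` is not semiprojective. Hence extensions of semiprojective Banach lattices need not be
semiprojective. -/
theorem result :
    (IsShortExact (ContinuousLinearMap.inl ℝ Ell1 Ell1) (ContinuousLinearMap.snd ℝ Ell1 Ell1) ∧
      Semiprojective Ell1 ∧ ¬ Semiprojective (Ell1 × Ell1)) ∧
    ¬ (∀ (J : Type) [NormedAddCommGroup J] [NormedSpace ℝ J] [Lattice J] [IsBanachLattice J]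
        (A : Type) [NormedAddCommGroup A] [NormedSpace ℝ A] [Lattice A] [IsBanachLattice A]
        (B : Type) [NormedAddCommGroup B] [NormedSpace ℝ B] [Lattice B] [IsBanachLattice B]
        (i : J →L[ℝ] A) (q : A →L[ℝ] B),
        IsShortExact i q → Semiprojective J → Semiprojective B → Semiprojective A) :=
  ⟨⟨shortExact, ell1_semiprojective, not_semiprojective⟩,
    fun h => not_semiprojective (h Ell1 (Ell1 × Ell1) Ell1 _ _ shortExact ell1_semiprojective
      ell1_semiprojective)⟩

end Pool.Agent.Results.MP_1502ad_an.SumNotSemiprojective
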